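import Pool.Agent.Helper58.CP.Stmts

/-!
# Row GF: the scalar function of the energy
-/

namespace QD66

open CP

/-- the primitive of `arctan (exp s) - π / 4` vanishing at `0` -/
noncomputable def G (s : ℝ) : ℝ := ∫ t in (0:ℝ)..s, (Real.arctan (Real.exp t) - Real.pi / 4)

theorem G_deriv (s : ℝ) : HasDerivAt G (Real.arctan (Real.exp s) - Real.pi / 4) s := by
  have hc : Continuous (fun t : ℝ => Real.arctan (Real.exp t) - Real.pi / 4) :=
    (Real.continuous_arctan.comp Real.continuous_exp).sub continuous_const
  exact intervalIntegral.integral_hasDerivAt_right (hc.intervalIntegrable 0 s)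
    (hc.stronglyMeasurableAtFilter _ _) hc.continuousAt

theorem G_zero : G 0 = 0 := by
  unfold G
  exact intervalIntegral.integral_same

theorem arctan_le_self {x : ℝ} (hx : 0 ≤ x) : Real.arctan x ≤ x := by
  rcases hx.eq_or_lt with h | h
  · rw [← h, Real.arctan_zero]
  · have h1 : 0 < Real.arctan x := Real.arctan_pos.2 h
    have h2 := (Real.lt_tan h1 (Real.arctan_lt_pi_div_two x)).le
    rwa [Real.tan_arctan] at h2

theorem st_GF : ST_GF := by
  refine ⟨G, G_deriv, ?_⟩
  -- the right half line
  have hr : Monotone (fun s : ℝ => G s - Real.pi / 4 * s - Real.exp (-s)) := by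
    refine monotone_of_hasDerivAt_nonneg
      (f' := fun s => (Real.arctan (Real.exp s) - Real.pi / 4) - Real.pi / 4 * 1 -
        Real.exp (-s) * (-1)) ?_ ?_
    · intro s
      exact ((G_deriv s).sub ((hasDerivAt_id s).const_mul (Real.pi / 4))).sub
        ((hasDerivAt_neg s).exp)
    · intro s
      have h1 : Real.arctan (Real.exp (-s)) = Real.pi / 2 - Real.arctan (Real.exp s) := by
        rw [Real.exp_neg, Real.arctan_inv_of_pos (Real.exp_pos s)]
      have h2 := arctan_le_self (Real.exp_pos (-s)).le
      show 0 ≤ (Real.arctan (Real.exp s) - Real.pi / 4) - Real.pi / 4 * 1 - Real.exp (-s) * (-1)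
      linarith
  have hl : Antitone (fun s : ℝ => G s + Real.pi / 4 * s - Real.exp s) := by
    refine antitone_of_hasDerivAt_nonpos
      (f' := fun s => (Real.arctan (Real.exp s) - Real.pi / 4) + Real.pi / 4 * 1 -
        Real.exp s) ?_ ?_
    · intro s
      exact ((G_deriv s).add ((hasDerivAt_id s).const_mul (Real.pi / 4))).sub
        (Real.hasDerivAt_exp s)
    · intro s
      have h2 := arctan_le_self (Real.exp_pos s).le
      show (Real.arctan (Real.exp s) - Real.pi / 4) + Real.pi / 4 * 1 - Real.exp s ≤ 0
      linarith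
  intro s
  rcases le_total 0 s with h | h
  · have h1 := hr h
    simp only [G_zero, mul_zero, neg_zero, Real.exp_zero, sub_zero] at h1
    have h2 := Real.exp_pos (-s)
    rw [abs_of_nonneg h]
    linarith
  · have h1 := hl h
    simp only [G_zero, mul_zero, Real.exp_zero, add_zero] at h1
    have h2 := Real.exp_pos s
    rw [abs_of_nonpos h]
    linarith

end QD66
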