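import Pool.Agent.Helper58.CP.Stmts

/-!
# Row RAD: existence of radii from the critical point of the energy
-/

namespace QD66

open CP Finset Classical

theorem face_ne {D V F : Type} [Fintype D] [Fintype V] [Fintype F] (m : LM D V F) (hT : m.Tri)
    (d : D) : m.face d ≠ d := by
  intro h
  have h1 : m.vt (m.face d) = m.vt (m.opp d) := m.vt_rot (m.opp d)
  rw [h] at h1
  exact hT.noloop d h1

theorem face2_ne {D V F : Type} [Fintype D] [Fintype V] [Fintype F] (m : LM D V F) (hT : m.Tri)
    (d : D) : m.face (m.face d) ≠ d := by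
  intro h
  have h1 := hT.f3 d
  rw [h] at h1
  exact face_ne m hT d h1

theorem fc_face {D V F : Type} [Fintype D] [Fintype V] [Fintype F] (m : LM D V F) (d : D) :
    m.fc (m.face d) = m.fc d := m.fc_face d

theorem fiber_eq {D V F : Type} [Fintype D] [Fintype V] [Fintype F] (m : LM D V F) (hT : m.Tri)
    (d : D) : (Finset.univ.filter (fun d' => m.fc d' = m.fc d)) =
      {d, m.face d, m.face (m.face d)} := by
  ext d'
  simp only [mem_filter, mem_univ, true_and, mem_insert, mem_singleton]
  constructor
  · exact hT.fib d d'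
  · rintro (h | h | h)
    · rw [h]
    · rw [h, fc_face]
    · rw [h, fc_face, fc_face]

theorem fiber_sum {D V F : Type} [Fintype D] [Fintype V] [Fintype F] (m : LM D V F) (hT : m.Tri)
    (d : D) (f : D → ℝ) : ∑ d' with m.fc d' = m.fc d, f d' =
      f d + f (m.face d) + f (m.face (m.face d)) := by
  rw [fiber_eq m hT d, sum_insert, sum_insert, sum_singleton]
  · ring
  · rw [mem_singleton]
    exact fun h => face_ne m hT (m.face d) h.symm
  · rw [mem_insert, mem_singleton]
    rintro (h | h)
    · exact face_ne m hT d h.symm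
    · exact face2_ne m hT d h.symm

theorem st_RAD (hC : ST_CRIT) (hR : ST_RHO) : ST_RAD := by
  intro D V F _ _ _ m o hT
  obtain ⟨u, w, hu, hw, hv⟩ := hC D V F m o hT
  refine ⟨fun v => Real.exp (u v), fun v => Real.exp_pos _, ?_, ?_⟩
  · intro v hv1
    show Real.exp (u v) = 1
    rw [hu v hv1, Real.exp_zero]
  · intro v hv1
    have key : ∀ d, m.vt d = v → m.angd (fun v => Real.exp (u v)) d =
        Real.pi - 2 * Real.arctan (Real.exp (u v - w (m.fc d))) := by
      intro d hd
      have h1 := hw (m.fc d)
      rw [fiber_sum m hT d] at h1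
      have h2 := hR (Real.exp (u (m.vt d))) (Real.exp (u (m.v1 d))) (Real.exp (u (m.v2 d)))
        (Real.exp (w (m.fc d))) (Real.exp_pos _) (Real.exp_pos _) (Real.exp_pos _)
        (Real.exp_pos _) (by
          rw [← Real.exp_sub, ← Real.exp_sub, ← Real.exp_sub]
          exact h1)
      have h3 : m.angd (fun v => Real.exp (u v)) d =
          2 * Real.arctan (rho (Real.exp (u (m.vt d))) (Real.exp (u (m.v1 d)))
            (Real.exp (u (m.v2 d))) / Real.exp (u (m.vt d))) := rfl
      rw [h3, h2, hd]
      have h4 : Real.exp (w (m.fc d)) / Real.exp (u v) = (Real.exp (u v - w (m.fc d)))⁻¹ := by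
        rw [Real.exp_sub, inv_div]
      rw [h4, Real.arctan_inv_of_pos (Real.exp_pos _)]
      ring
    have h5 : ∑ d with m.vt d = v, m.angd (fun v => Real.exp (u v)) d =
        ∑ d with m.vt d = v, (Real.pi - 2 * Real.arctan (Real.exp (u v - w (m.fc d)))) := by
      refine sum_congr rfl ?_
      intro d hd
      exact key d (mem_filter.1 hd).2
    rw [h5, sum_sub_distrib, ← mul_sum, hv v hv1, sum_const, nsmul_eq_mul]
    have h6 : ((Finset.univ.filter (fun d => m.vt d = v)).card : ℝ) = (m.dg v : ℝ) := rfl
    rw [h6]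
    ring

end QD66
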